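import Pool.Agent.Lib.MP_d53d42_lc.Final

/-!
# MP_d53d42_lc: the fractional irredundance number of trees in polynomial time

On trees, the fractional irredundance number is an integer and is computed by a Turing machine in
polynomial time from the vertex and edge lists; so is the decision problem `ir_f(T) ≤ q`.
-/

set_option autoImplicit false

namespace Pool.Agent.Results.MP_d53d42_lc.PolyTrees

open Pool.Agent.PolyTime Pool.Agent.Lib.FracIrr

theorem result :
    (∃ A : List ℕ × List (ℕ × ℕ) → ℕ, IsPolyTime enc enc A ∧
      ∀ V E, (graphOf V E).IsTree → irf (graphOf V E) = A (V, E)) ∧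
    (∃ B : (List ℕ × List (ℕ × ℕ)) × ℚ → Bool, IsPolyTime enc enc B ∧
      ∀ V E (q : ℚ), (graphOf V E).IsTree → (B ((V, E), q) = true ↔ irf (graphOf V E) ≤ q)) ∧
    (∀ (n : ℕ) (T : SimpleGraph (Fin n)), T.IsTree →
      (graphOf (List.range n) (edgeList T)).IsTree ∧
      irf T = irf (graphOf (List.range n) (edgeList T)) ∧
      (bits (enc (List.range n, edgeList T))).length ≤ 20 * (n + 1) ^ 3) :=
  final

end Pool.Agent.Results.MP_d53d42_lc.PolyTrees
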